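import Mathlib

/-!
# Random sets of common differences: compression and counting
-/

set_option autoImplicit false

namespace Pool.Agent.H88RD

open Finset

/-- the grid `{0, …, N - 1} ^ n` -/
noncomputable def grid (n N : ℕ) : Finset (Fin n → ℤ) := Fintype.piFinset fun _ => Finset.Ico (0 : ℤ) N

theorem card_grid (n N : ℕ) : (grid n N).card = N ^ n := by
  unfold grid
  rw [Fintype.card_piFinset]
  simp

theorem mem_grid {n N : ℕ} {r : Fin n → ℤ} : r ∈ grid n N ↔ ∀ i, 0 ≤ r i ∧ r i < N := by
  unfold grid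
  rw [Fintype.mem_piFinset]
  simp only [Finset.mem_Ico]

/-- `D` contains a `k`-term progression with every common difference in `R` -/
def HasZ {n : ℕ} (k : ℕ) (R D : Finset (Fin n → ℤ)) : Prop :=
  ∀ r ∈ R, ∃ a : Fin n → ℤ, ∀ j : ℕ, j < k → (fun i => a i + j * r i) ∈ D

theorem HasZ.mono {n k : ℕ} {R R' D D' : Finset (Fin n → ℤ)} (h : HasZ k R D) (hR : R' ⊆ R)
    (hD : D ⊆ D') : HasZ k R' D' := by
  intro r hr
  obtain ⟨a, ha⟩ := h r (hR hr)
  exact ⟨a, fun j hj => hD (ha j hj)⟩

/-- the intervals to the right of the points of `D` -/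
noncomputable def En {n : ℕ} (N : ℕ) (D : Finset (Fin n → ℤ)) (i : Fin n) : Finset ℤ :=
  D.biUnion fun d => Finset.Ico (d i) (d i + N)

/-- the compression -/
noncomputable def phi {n : ℕ} (N : ℕ) (D : Finset (Fin n → ℤ)) (x : Fin n → ℤ) : Fin n → ℤ :=
  fun i => (((En N D i).filter fun y => y < x i).card : ℤ)

theorem card_En {n : ℕ} (N : ℕ) (D : Finset (Fin n → ℤ)) (i : Fin n) :
    (En N D i).card ≤ D.card * N := by
  unfold En
  refine Finset.card_biUnion_le.trans ?_
  rw [Finset.card_eq_sum_ones, Finset.sum_mul]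
  refine Finset.sum_le_sum fun d _ => ?_
  rw [Int.card_Ico]
  simp

theorem phi_mem {n : ℕ} (N : ℕ) (D : Finset (Fin n → ℤ)) (x : Fin n → ℤ) :
    phi N D x ∈ grid n (D.card * N + 1) := by
  rw [mem_grid]
  intro i
  unfold phi
  refine ⟨by positivity, ?_⟩
  have h1 := (Finset.card_filter_le (En N D i) fun y => y < x i).trans (card_En N D i)
  have h2 : (((En N D i).filter fun y => y < x i).card : ℤ) ≤ (D.card * N : ℕ) := by
    exact_mod_cast h1
  push_cast at h2 ⊢
  linarith

theorem phi_add {n : ℕ} (N : ℕ) (D : Finset (Fin n → ℤ)) (x r : Fin n → ℤ) (hx : x ∈ D)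
    (hr : ∀ i, 0 ≤ r i ∧ r i < N) (i : Fin n) :
    phi N D (fun i => x i + r i) i = phi N D x i + r i := by
  unfold phi
  have h1 : ((En N D i).filter fun y => y < x i + r i) =
      ((En N D i).filter fun y => y < x i) ∪ Finset.Ico (x i) (x i + r i) := by
    ext y
    rw [Finset.mem_union, Finset.mem_filter, Finset.mem_filter, Finset.mem_Ico]
    constructor
    · rintro ⟨h1, h2⟩
      rcases lt_or_ge y (x i) with h | h
      · exact Or.inl ⟨h1, h⟩
      · exact Or.inr ⟨h, h2⟩
    · rintro (⟨h1, h2⟩ | ⟨h1, h2⟩)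
      · exact ⟨h1, by linarith [(hr i).1]⟩
      · refine ⟨?_, h2⟩
        unfold En
        rw [Finset.mem_biUnion]
        exact ⟨x, hx, Finset.mem_Ico.mpr ⟨h1, by linarith [(hr i).2]⟩⟩
  have h2 : Disjoint ((En N D i).filter fun y => y < x i) (Finset.Ico (x i) (x i + r i)) := by
    rw [Finset.disjoint_left]
    intro y hy hy2
    rw [Finset.mem_filter] at hy
    rw [Finset.mem_Ico] at hy2
    linarith [hy.2, hy2.1]
  rw [h1, Finset.card_union_of_disjoint h2, Int.card_Ico]
  push_cast
  rw [Int.toNat_of_nonneg (by linarith [(hr i).1])]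
  ring

/-- compression -/
theorem compress {n k N : ℕ} {R D : Finset (Fin n → ℤ)} (hR : R ⊆ grid n N) (h : HasZ k R D) :
    ∃ D' ⊆ grid n (D.card * N + 1), D'.card ≤ D.card ∧ HasZ k R D' := by
  classical
  refine ⟨D.image (phi N D), ?_, Finset.card_image_le, ?_⟩
  · intro y hy
    obtain ⟨x, _, rfl⟩ := Finset.mem_image.mp hy
    exact phi_mem N D x
  · intro r hr
    obtain ⟨a, ha⟩ := h r hr
    have hr' := mem_grid.mp (hR hr)
    refine ⟨phi N D a, fun j hj => ?_⟩
    have key : ∀ j : ℕ, j < k → phi N D (fun i => a i + j * r i) = fun i => phi N D a i + j * r i := by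
      intro j
      induction j with
      | zero =>
        intro _
        simp
      | succ j ih =>
        intro hj
        funext i
        have h1 := phi_add N D (fun i => a i + j * r i) r (ha j (by omega)) hr' i
        have h2 := congrFun (ih (by omega)) i
        rw [h2] at h1
        have e : (fun i => a i + ((j + 1 : ℕ) : ℤ) * r i) = fun i => a i + j * r i + r i := by
          funext i
          push_cast
          ring
        rw [e, h1]
        push_cast
        ring
    rw [← key j hj]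
    exact Finset.mem_image_of_mem _ (ha j hj)

open Classical in
/-- the common differences of the progressions in `D` -/
noncomputable def Rd (k n N : ℕ) (D : Finset (Fin n → ℤ)) : Finset (Fin n → ℤ) :=
  (grid n N).filter fun r => ∃ a : Fin n → ℤ, ∀ j : ℕ, j < k → (fun i => a i + j * r i) ∈ D

theorem mem_Rd {k n N : ℕ} {D : Finset (Fin n → ℤ)} {r : Fin n → ℤ} : r ∈ Rd k n N D ↔
    r ∈ grid n N ∧ ∃ a : Fin n → ℤ, ∀ j : ℕ, j < k → (fun i => a i + j * r i) ∈ D := by
  classical
  unfold Rd
  rw [Finset.mem_filter]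

theorem hasZ_Rd (k n N : ℕ) (D : Finset (Fin n → ℤ)) : HasZ k (Rd k n N D) D := by
  intro r hr
  exact (mem_Rd.mp hr).2

/-- a nonempty set with at most `M` elements is the image of a function on `Fin M` -/
theorem exists_enum {α : Type*} [DecidableEq α] {S D : Finset α} (hD : D ⊆ S) {M : ℕ}
    (hM : D.card ≤ M) (hne : D.Nonempty) : ∃ g : Fin M → S, Finset.univ.image (fun i => (g i : α)) = D := by
  obtain ⟨d₀, hd₀⟩ := hne
  let e := D.equivFin
  refine ⟨fun i => if h : (i : ℕ) < D.card then ⟨(e.symm ⟨i, h⟩ : α), hD (e.symm ⟨i, h⟩).2⟩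
    else ⟨d₀, hD hd₀⟩, ?_⟩
  ext x
  rw [Finset.mem_image]
  constructor
  · rintro ⟨i, _, rfl⟩
    by_cases h : (i : ℕ) < D.card
    · simp only [h, dif_pos]
      exact (e.symm ⟨i, h⟩).2
    · simp only [h, dif_neg, not_false_iff]
      exact hd₀
  · intro hx
    have h1 : ((e ⟨x, hx⟩ : Fin D.card) : ℕ) < M := lt_of_lt_of_le (e ⟨x, hx⟩).2 hM
    refine ⟨⟨(e ⟨x, hx⟩ : ℕ), h1⟩, Finset.mem_univ _, ?_⟩
    simp

/-- quotients of binomial coefficients -/
theorem choose_ratio {a b : ℕ} (hab : a ≤ b) (m : ℕ) :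
    (a.choose m : ℝ) * (b : ℝ) ^ m ≤ (b.choose m : ℝ) * (a : ℝ) ^ m := by
  have h1 : ∀ m : ℕ, a.descFactorial m * b ^ m ≤ b.descFactorial m * a ^ m := by
    intro m
    induction m with
    | zero => simp
    | succ m ih =>
      rw [Nat.descFactorial_succ, Nat.descFactorial_succ, pow_succ, pow_succ]
      have h2 : (a - m) * b ≤ (b - m) * a := by
        rcases le_total a m with h | h
        · rw [Nat.sub_eq_zero_of_le h, zero_mul]
          exact Nat.zero_le _
        · obtain ⟨c, rfl⟩ := Nat.exists_eq_add_of_le h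
          obtain ⟨d, rfl⟩ := Nat.exists_eq_add_of_le hab
          have e1 : m + c - m = c := by omega
          have e2 : m + c + d - m = c + d := by omega
          rw [e1, e2]
          nlinarith [Nat.zero_le (m * d)]
      calc (a - m) * a.descFactorial m * (b ^ m * b)
          = ((a - m) * b) * (a.descFactorial m * b ^ m) := by ring
        _ ≤ ((b - m) * a) * (b.descFactorial m * a ^ m) := Nat.mul_le_mul h2 ih
        _ = (b - m) * b.descFactorial m * (a ^ m * a) := by ring
  have h3 := h1 m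
  rw [Nat.descFactorial_eq_factorial_mul_choose, Nat.descFactorial_eq_factorial_mul_choose] at h3
  have h4 : a.choose m * b ^ m ≤ b.choose m * a ^ m := by
    have h5 : 0 < m.factorial := Nat.factorial_pos m
    refine Nat.le_of_mul_le_mul_left ?_ h5
    calc m.factorial * (a.choose m * b ^ m) = m.factorial * a.choose m * b ^ m := by ring
      _ ≤ m.factorial * b.choose m * a ^ m := h3
      _ = m.factorial * (b.choose m * a ^ m) := by ring
  exact_mod_cast h4

open Classical in
/-- the number of the sets of differences with small `D` -/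
theorem count_bad {n k N m M : ℕ} (hk : 1 ≤ k) (hm : 1 ≤ m) {f : ℝ} (hf0 : 0 < f)
    (hf : ∀ R D : Finset (Fin n → ℤ), R.Nonempty → HasZ k R D → (R.card : ℝ) ^ f ≤ D.card)
    (hN : 1 ≤ N) :
    (((powersetCard m (grid n N)).filter
      (fun R => ∃ D : Finset (Fin n → ℤ), D.card ≤ M ∧ HasZ k R D)).card : ℝ) ≤
      (((M * N + 1 : ℕ) : ℝ) ^ n) ^ M * (((M : ℝ) ^ (1 / f) / (N : ℝ) ^ n) ^ m *
        (powersetCard m (grid n N)).card) := by
  set L : ℕ := M * N + 1 with hL
  set A : ℝ := (M : ℝ) ^ (1 / f) with hA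
  have hNn : (0 : ℝ) < (N : ℝ) ^ n := by positivity
  -- the number of the sets of differences of one `D`
  have hone : ∀ D : Finset (Fin n → ℤ), D.card ≤ M →
      ((powersetCard m (Rd k n N D)).card : ℝ) ≤ (A / (N : ℝ) ^ n) ^ m *
        (powersetCard m (grid n N)).card := by
    intro D hD
    rw [Finset.card_powersetCard, Finset.card_powersetCard, card_grid]
    have h1 : ((Rd k n N D).card : ℝ) ≤ A := by
      rcases (Rd k n N D).eq_empty_or_nonempty with h0 | h0
      · rw [h0]
        simp only [Finset.card_empty, Nat.cast_zero]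
        positivity
      · have h2 := hf _ _ h0 (hasZ_Rd k n N D)
        have h3 : ((Rd k n N D).card : ℝ) ^ f ≤ M := h2.trans (by exact_mod_cast hD)
        have h4 : (((Rd k n N D).card : ℝ) ^ f) ^ (1 / f) ≤ (M : ℝ) ^ (1 / f) :=
          Real.rpow_le_rpow (by positivity) h3 (by positivity)
        rwa [← Real.rpow_mul (Nat.cast_nonneg _), mul_one_div_cancel hf0.ne', Real.rpow_one] at h4
    have h5 : (Rd k n N D).card ≤ N ^ n := by
      rw [← card_grid]
      exact Finset.card_le_card fun r hr => (mem_Rd.mp hr).1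
    have h6 := choose_ratio h5 m
    push_cast at h6
    have h7 : ((Rd k n N D).card : ℝ) ^ m ≤ A ^ m := pow_le_pow_left₀ (Nat.cast_nonneg _) h1 m
    rw [div_pow, div_mul_eq_mul_div, le_div_iff₀ (by positivity)]
    calc (((Rd k n N D).card.choose m : ℕ) : ℝ) * ((N : ℝ) ^ n) ^ m
        ≤ (((N ^ n).choose m : ℕ) : ℝ) * ((Rd k n N D).card : ℝ) ^ m := h6
      _ ≤ (((N ^ n).choose m : ℕ) : ℝ) * A ^ m :=
          mul_le_mul_of_nonneg_left h7 (Nat.cast_nonneg _)
      _ = A ^ m * (((N ^ n).choose m : ℕ) : ℝ) := mul_comm _ _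
  have hsub : ((powersetCard m (grid n N)).filter
      (fun R => ∃ D : Finset (Fin n → ℤ), D.card ≤ M ∧ HasZ k R D)) ⊆
      (Finset.univ : Finset (Fin M → grid n L)).biUnion (fun g =>
        powersetCard m (Rd k n N (Finset.univ.image (fun i => (g i : Fin n → ℤ))))) := by
    intro R hR
    rw [Finset.mem_filter, Finset.mem_powersetCard] at hR
    obtain ⟨⟨hR1, hR2⟩, D, hD, hRD⟩ := hR
    obtain ⟨D', hD'1, hD'2, hD'3⟩ := compress hR1 hRD
    have hne : D'.Nonempty := by
      have : R.Nonempty := by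
        rw [← Finset.card_pos]; omega
      obtain ⟨r, hr⟩ := this
      obtain ⟨a, ha⟩ := hD'3 r hr
      exact ⟨_, ha 0 (by omega)⟩
    have hsubL : D' ⊆ grid n L := by
      intro x hx
      have := mem_grid.mp (hD'1 hx)
      rw [mem_grid]
      intro i
      refine ⟨(this i).1, lt_of_lt_of_le (this i).2 ?_⟩
      have : D.card * N + 1 ≤ L := by
        rw [hL]
        exact Nat.add_le_add_right (Nat.mul_le_mul_right _ hD) 1
      exact_mod_cast this
    obtain ⟨g, hg⟩ := exists_enum hsubL (hD'2.trans hD) hne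
    rw [Finset.mem_biUnion]
    refine ⟨g, Finset.mem_univ _, ?_⟩
    rw [hg, Finset.mem_powersetCard]
    exact ⟨fun r hr => mem_Rd.mpr ⟨hR1 hr, hD'3 r hr⟩, hR2⟩
  have h1 := (Finset.card_le_card hsub).trans Finset.card_biUnion_le
  have h2 : (((powersetCard m (grid n N)).filter
      (fun R => ∃ D : Finset (Fin n → ℤ), D.card ≤ M ∧ HasZ k R D)).card : ℝ) ≤
      ∑ g : Fin M → grid n L,
        ((powersetCard m (Rd k n N (Finset.univ.image (fun i => (g i : Fin n → ℤ))))).card : ℝ) := by
    exact_mod_cast h1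
  refine h2.trans ?_
  calc ∑ g : Fin M → grid n L,
        ((powersetCard m (Rd k n N (Finset.univ.image (fun i => (g i : Fin n → ℤ))))).card : ℝ)
      ≤ ∑ g : Fin M → grid n L, (A / (N : ℝ) ^ n) ^ m * (powersetCard m (grid n N)).card := by
        refine Finset.sum_le_sum fun g _ => hone _ ?_
        refine Finset.card_image_le.trans ?_
        simp
    _ = _ := by
        rw [Finset.sum_const, nsmul_eq_mul, Finset.card_univ, Fintype.card_fun, Fintype.card_fin,
          Fintype.card_coe, card_grid]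
        push_cast
        rfl

end Pool.Agent.H88RD
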