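import Pool.Agent.H88RD.Base

/-!
# Random sets of common differences: the lower bound for almost all sets
-/

set_option autoImplicit false

namespace Pool.Agent.H88RD

open Finset

/-- Euclidean space -/
abbrev E (n : ℕ) : Type := EuclideanSpace ℝ (Fin n)

/-- an integer vector as a real vector -/
noncomputable def vec {n : ℕ} (r : Fin n → ℤ) : E n := WithLp.toLp 2 fun i => (r i : ℝ)

/-- `D` contains a `k`-term progression with every common difference in `R` -/
def HasE {n : ℕ} (k : ℕ) (R : Finset (Fin n → ℤ)) (D : Finset (E n)) : Prop :=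
  ∀ r ∈ R, ∃ a : E n, ∀ j : ℕ, j < k → a + (j : ℝ) • vec r ∈ D

/-- the least number of elements of a finite set which contains `k`-term progressions with all common
differences in `R` -/
noncomputable def T {n : ℕ} (k : ℕ) (R : Finset (Fin n → ℤ)) : ℕ :=
  sInf {t | ∃ D : Finset (E n), D.card = t ∧ HasE k R D}

theorem toE {n k : ℕ} {R D : Finset (Fin n → ℤ)} (h : HasZ k R D) : T k R ≤ D.card := by
  classical
  refine le_trans (Nat.sInf_le ⟨D.image vec, rfl, ?_⟩) Finset.card_image_le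
  intro r hr
  obtain ⟨a, ha⟩ := h r hr
  refine ⟨vec a, fun j hj => ?_⟩
  refine Finset.mem_image.mpr ⟨_, ha j hj, ?_⟩
  unfold vec
  ext i
  simp

theorem triv {n : ℕ} (k : ℕ) (R : Finset (Fin n → ℤ)) :
    ∃ D : Finset (Fin n → ℤ), D.card ≤ k * R.card ∧ HasZ k R D := by
  classical
  refine ⟨(Finset.range k ×ˢ R).image (fun z => fun i => (z.1 : ℤ) * z.2 i), ?_, ?_⟩
  · refine Finset.card_image_le.trans ?_
    rw [Finset.card_product, Finset.card_range]
  · intro r hr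
    refine ⟨0, fun j hj => Finset.mem_image.mpr ⟨(j, r), ?_, ?_⟩⟩
    · exact Finset.mem_product.mpr ⟨Finset.mem_range.mpr hj, hr⟩
    · funext i
      simp

theorem T_le {n : ℕ} (k : ℕ) (R : Finset (Fin n → ℤ)) : T k R ≤ k * R.card := by
  obtain ⟨D, h1, h2⟩ := triv k R
  exact (toE h2).trans h1

theorem floor_prog (x y : ℝ) (j : ℕ) (r : ℤ) (h : y = j * r) : ⌊x + y⌋ = ⌊x⌋ + j * r := by
  have : y = ((j * r : ℤ) : ℝ) := by rw [h]; push_cast; ring
  rw [this, Int.floor_add_intCast]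

/-- reduction to integer points; the minimum is attained -/
theorem T_attained {n : ℕ} (k : ℕ) (R : Finset (Fin n → ℤ)) :
    ∃ D : Finset (Fin n → ℤ), D.card ≤ T k R ∧ HasZ k R D := by
  classical
  have hne : {t | ∃ D : Finset (E n), D.card = t ∧ HasE k R D}.Nonempty := by
    obtain ⟨D, _, h2⟩ := triv k R
    refine ⟨_, D.image vec, rfl, ?_⟩
    intro r hr
    obtain ⟨a, ha⟩ := h2 r hr
    refine ⟨vec a, fun j hj => ?_⟩
    refine Finset.mem_image.mpr ⟨_, ha j hj, ?_⟩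
    unfold vec
    ext i
    simp
  obtain ⟨D, hD1, hD2⟩ := Nat.sInf_mem hne
  refine ⟨D.image fun x => fun i => ⌊x i⌋, ?_, ?_⟩
  · refine Finset.card_image_le.trans (le_of_eq hD1)
  · intro r hr
    obtain ⟨a, ha⟩ := hD2 r hr
    refine ⟨fun i => ⌊a i⌋, fun j hj => Finset.mem_image.mpr ⟨_, ha j hj, ?_⟩⟩
    funext i
    have e : (a + (j : ℝ) • vec r) i = a i + (j : ℝ) * (r i : ℝ) := by
      simp [vec]
    rw [e]
    exact floor_prog _ _ j (r i) rfl

open Classical in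
/-- almost all sets of common differences -/
theorem lower {n k : ℕ} (hn : 1 ≤ n) (hk : 1 ≤ k) {f : ℝ} (hf0 : 0 < f) (hf1 : f ≤ 1)
    (hf : ∀ R D : Finset (Fin n → ℤ), R.Nonempty → HasZ k R D → (R.card : ℝ) ^ f ≤ D.card)
    {ε : ℝ} (hε : 0 < ε) (hε1 : ε ≤ 1) {N m : ℕ} (hN : 2 ≤ N) (hm : 1 ≤ m) :
    (((powersetCard m (grid n N)).filter fun R =>
      (T k R : ℝ) < ε / (2 * n * (n + 1)) * min (m : ℝ) ((N : ℝ) ^ (n * f - ε))).card : ℝ) ≤
    (N : ℝ) ^ (-(ε * m / 2)) * (powersetCard m (grid n N)).card := by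
  have hN1 : (1 : ℝ) ≤ N := by exact_mod_cast (by omega : 1 ≤ N)
  have hN0 : (0 : ℝ) < N := by linarith
  have hNR2 : (2 : ℝ) ≤ N := by exact_mod_cast hN
  have hn1 : (1 : ℝ) ≤ n := by exact_mod_cast hn
  have hm1 : (1 : ℝ) ≤ m := by exact_mod_cast hm
  rcases lt_or_ge (N ^ n) m with hlt | hge
  · have h0 : powersetCard m (grid n N) = ∅ := by
      rw [Finset.powersetCard_eq_empty, card_grid]
      exact hlt
    rw [h0]
    simp
  set c : ℝ := ε / (2 * n * (n + 1)) with hc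
  have hc0 : 0 < c := by positivity
  have hc4 : c ≤ 1 / 4 := by
    rw [hc, div_le_div_iff₀ (by positivity) (by norm_num)]
    nlinarith
  have hcn : n * (n + 1) * c = ε / 2 := by
    rw [hc]
    field_simp
  set Y : ℝ := c * min (m : ℝ) ((N : ℝ) ^ (n * f - ε)) with hY
  have hY0 : 0 ≤ Y := by positivity
  set M : ℕ := ⌊Y⌋₊ with hM
  have hMY : (M : ℝ) ≤ Y := Nat.floor_le hY0
  have hMm : (M : ℝ) ≤ c * m := hMY.trans (mul_le_mul_of_nonneg_left (min_le_left _ _) hc0.le)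
  have hMN : (M : ℝ) ≤ (N : ℝ) ^ (n * f - ε) := by
    have h1 : (0 : ℝ) < (N : ℝ) ^ (n * f - ε) := by positivity
    calc (M : ℝ) ≤ Y := hMY
      _ ≤ c * (N : ℝ) ^ (n * f - ε) := mul_le_mul_of_nonneg_left (min_le_right _ _) hc0.le
      _ ≤ 1 * (N : ℝ) ^ (n * f - ε) := by
          apply mul_le_mul_of_nonneg_right _ h1.le
          linarith
      _ = _ := one_mul _
  have hcount := count_bad (n := n) (k := k) (N := N) (m := m) (M := M) hk hm hf0 hf (by omega)
  have hsub : ((powersetCard m (grid n N)).filter fun R => (T k R : ℝ) < Y) ⊆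
      ((powersetCard m (grid n N)).filter
        (fun R => ∃ D : Finset (Fin n → ℤ), D.card ≤ M ∧ HasZ k R D)) := by
    intro R hR
    rw [Finset.mem_filter] at hR ⊢
    refine ⟨hR.1, ?_⟩
    obtain ⟨D, hD1, hD2⟩ := T_attained k R
    exact ⟨D, hD1.trans (Nat.le_floor hR.2.le), hD2⟩
  have h1 : (((powersetCard m (grid n N)).filter fun R => (T k R : ℝ) < Y).card : ℝ) ≤ _ :=
    (Nat.cast_le.mpr (Finset.card_le_card hsub)).trans hcount
  refine h1.trans ?_
  rw [← mul_assoc]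
  apply mul_le_mul_of_nonneg_right _ (Nat.cast_nonneg _)
  -- the quotient
  have hNn : (0 : ℝ) < (N : ℝ) ^ n := by positivity
  have hA : (M : ℝ) ^ (1 / f) / (N : ℝ) ^ n ≤ (N : ℝ) ^ (-ε) := by
    rw [div_le_iff₀ hNn]
    calc (M : ℝ) ^ (1 / f) ≤ ((N : ℝ) ^ (n * f - ε)) ^ (1 / f) :=
          Real.rpow_le_rpow (Nat.cast_nonneg _) hMN (by positivity)
      _ = (N : ℝ) ^ ((n * f - ε) * (1 / f)) := by rw [← Real.rpow_mul hN0.le]
      _ ≤ (N : ℝ) ^ (-ε + n) := by
          apply Real.rpow_le_rpow_of_exponent_le hN1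
          have e : (n * f - ε) * (1 / f) = n - ε / f := by field_simp
          rw [e]
          have : ε ≤ ε / f := by rw [le_div_iff₀ hf0]; nlinarith
          linarith
      _ = (N : ℝ) ^ (-ε) * (N : ℝ) ^ n := by
          rw [Real.rpow_add hN0, Real.rpow_natCast]
  have hA2 : ((M : ℝ) ^ (1 / f) / (N : ℝ) ^ n) ^ m ≤ (N : ℝ) ^ (-ε * m) := by
    calc _ ≤ ((N : ℝ) ^ (-ε)) ^ m := pow_le_pow_left₀ (by positivity) hA m
      _ = (N : ℝ) ^ (-ε * m) := by rw [← Real.rpow_natCast, ← Real.rpow_mul hN0.le]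
  -- the number of the sets `D`
  have hmN : (m : ℝ) ≤ (N : ℝ) ^ n := by exact_mod_cast hge
  have hL : ((M * N + 1 : ℕ) : ℝ) ≤ (N : ℝ) ^ (n + 1) := by
    push_cast
    have h2 : (M : ℝ) ≤ (N : ℝ) ^ n / 4 := by
      calc (M : ℝ) ≤ c * m := hMm
        _ ≤ 1 / 4 * (N : ℝ) ^ n := mul_le_mul hc4 hmN (by positivity) (by norm_num)
        _ = _ := by ring
    have h3 : (2 : ℝ) ≤ (N : ℝ) ^ n := hNR2.trans (le_self_pow₀ hN1 (by omega))
    rw [pow_succ]
    nlinarith
  have hB : (((M * N + 1 : ℕ) : ℝ) ^ n) ^ M ≤ (N : ℝ) ^ (ε * m / 2) := by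
    calc (((M * N + 1 : ℕ) : ℝ) ^ n) ^ M ≤ (((N : ℝ) ^ (n + 1)) ^ n) ^ M :=
          pow_le_pow_left₀ (by positivity) (pow_le_pow_left₀ (by positivity) hL n) M
      _ = (N : ℝ) ^ (((n + 1) * n * M : ℕ) : ℝ) := by
          rw [Real.rpow_natCast, ← pow_mul, ← pow_mul, mul_assoc]
      _ ≤ (N : ℝ) ^ (ε * m / 2) := by
          apply Real.rpow_le_rpow_of_exponent_le hN1
          push_cast
          calc ((n : ℝ) + 1) * n * M ≤ (n + 1) * n * (c * m) :=
                mul_le_mul_of_nonneg_left hMm (by positivity)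
            _ = (n * (n + 1) * c) * m := by ring
            _ = ε * m / 2 := by rw [hcn]; ring
  calc (((M * N + 1 : ℕ) : ℝ) ^ n) ^ M * ((M : ℝ) ^ (1 / f) / (N : ℝ) ^ n) ^ m
      ≤ (N : ℝ) ^ (ε * m / 2) * (N : ℝ) ^ (-ε * m) := mul_le_mul hB hA2 (by positivity) (by positivity)
    _ = (N : ℝ) ^ (-(ε * m / 2)) := by
        rw [← Real.rpow_add hN0]
        congr 1
        ring

end Pool.Agent.H88RD
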