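import Pool.Agent.H88RD.Low

/-!
# Random sets of common differences: upper bounds
-/

set_option autoImplicit false

namespace Pool.Agent.H88RD

open Finset

/-- `Δ` contains a `k`-term progression with each of the common differences `0, …, M - 1` -/
def Pr (k M : ℕ) (Δ : Finset ℤ) : Prop :=
  ∀ r : ℤ, 0 ≤ r → r < M → ∃ a : ℤ, ∀ j : ℕ, j < k → a + j * r ∈ Δ

theorem Pr_mul {k M M' : ℕ} (hM : 1 ≤ M) {Δ Δ' : Finset ℤ} (h : Pr k M Δ) (h' : Pr k M' Δ') :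
    ∃ Δ'' : Finset ℤ, Δ''.card ≤ Δ.card * Δ'.card ∧ Pr k (M * M') Δ'' := by
  classical
  refine ⟨(Δ ×ˢ Δ').image fun z => z.1 + M * z.2, ?_, ?_⟩
  · refine Finset.card_image_le.trans ?_
    rw [Finset.card_product]
  · intro r hr hr2
    have hMZ : (0 : ℤ) < M := by exact_mod_cast hM
    obtain ⟨a, ha⟩ := h (r % M) (Int.emod_nonneg _ hMZ.ne') (Int.emod_lt_of_pos _ hMZ)
    obtain ⟨b, hb⟩ := h' (r / M) (Int.ediv_nonneg hr hMZ.le)
      (Int.ediv_lt_of_lt_mul hMZ (by push_cast at hr2; linarith))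
    refine ⟨a + M * b, fun j hj => Finset.mem_image.mpr ⟨(a + j * (r % M), b + j * (r / M)), ?_, ?_⟩⟩
    · exact Finset.mem_product.mpr ⟨ha j hj, hb j hj⟩
    · have e := Int.emod_add_mul_ediv r M
      simp only
      calc a + j * (r % M) + M * (b + j * (r / M)) = a + M * b + j * (r % M + M * (r / M)) := by ring
        _ = a + M * b + j * r := by rw [e]

theorem Pr_pow {k M : ℕ} (hM : 1 ≤ M) {Δ : Finset ℤ} (h : Pr k M Δ) (t : ℕ) :
    ∃ Δ' : Finset ℤ, Δ'.card ≤ Δ.card ^ t ∧ Pr k (M ^ t) Δ' := by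
  induction t with
  | zero =>
    refine ⟨{0}, by simp, fun r hr hr2 => ⟨0, fun j _ => ?_⟩⟩
    have : r = 0 := by
      rw [pow_zero] at hr2
      push_cast at hr2
      omega
    subst this
    simp
  | succ t ih =>
    obtain ⟨Δ', h1, h2⟩ := ih
    obtain ⟨Δ'', h3, h4⟩ := Pr_mul hM h h2
    refine ⟨Δ'', ?_, ?_⟩
    · rw [pow_succ, mul_comm]
      exact h3.trans (Nat.mul_le_mul_left _ h1)
    · rw [pow_succ, mul_comm]
      exact h4

/-- the upper bound for all sets of common differences -/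
theorem upper {k : ℕ} {f : ℝ} (hf0 : 0 < f)
    (hs : ∀ s : ℝ, f < s → ∃ M : ℕ, 2 ≤ M ∧ ∃ Δ : Finset ℤ, Pr k M Δ ∧ (Δ.card : ℝ) ≤ (M : ℝ) ^ s)
    {n : ℕ} (hn : 1 ≤ n) {ε : ℝ} (hε : 0 < ε) :
    ∃ C : ℝ, 0 < C ∧ ∀ N : ℕ, 1 ≤ N → ∀ R ⊆ grid n N, (T k R : ℝ) ≤ C * (N : ℝ) ^ (n * f + ε) := by
  classical
  have hn0 : (0 : ℝ) < n := by exact_mod_cast hn
  set s : ℝ := f + ε / n with hsdef
  have hs0 : 0 < s := by positivity
  obtain ⟨M, hM, Δ, hΔ, hc⟩ := hs s (by rw [hsdef]; linarith [div_pos hε hn0])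
  have hM0 : (0 : ℝ) < M := by exact_mod_cast (by omega : 0 < M)
  refine ⟨((M : ℝ) ^ s) ^ n, by positivity, fun N hN R hR => ?_⟩
  have hN0 : (0 : ℝ) < N := by exact_mod_cast hN
  obtain ⟨t, ht1, ht2⟩ : ∃ t : ℕ, N ≤ M ^ t ∧ M ^ t ≤ M * N := by
    refine ⟨Nat.clog M N, Nat.le_pow_clog (by omega) N, ?_⟩
    rcases Nat.eq_or_lt_of_le hN with h | h
    · rw [← h]
      simp
      omega
    · have h1 := Nat.pow_pred_clog_lt_self (b := M) (by omega) h
      have h2 : 0 < Nat.clog M N := Nat.clog_pos (by omega) h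
      obtain ⟨u, hu⟩ := Nat.exists_eq_succ_of_ne_zero h2.ne'
      rw [hu] at h1 ⊢
      rw [Nat.pred_succ] at h1
      rw [pow_succ, mul_comm]
      exact Nat.mul_le_mul_left _ h1.le
  obtain ⟨Δ', h1, h2⟩ := Pr_pow (by omega : 1 ≤ M) hΔ t
  have h3 : (Δ'.card : ℝ) ≤ (M : ℝ) ^ s * (N : ℝ) ^ s := by
    calc (Δ'.card : ℝ) ≤ (Δ.card : ℝ) ^ t := by exact_mod_cast h1
      _ ≤ ((M : ℝ) ^ s) ^ t := pow_le_pow_left₀ (Nat.cast_nonneg _) hc t
      _ = ((M : ℝ) ^ t) ^ s := by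
          rw [← Real.rpow_natCast, ← Real.rpow_natCast, ← Real.rpow_mul hM0.le,
            ← Real.rpow_mul hM0.le, mul_comm]
      _ ≤ ((M : ℝ) * N) ^ s := by
          apply Real.rpow_le_rpow (by positivity) _ hs0.le
          exact_mod_cast ht2
      _ = (M : ℝ) ^ s * (N : ℝ) ^ s := Real.mul_rpow hM0.le hN0.le
  have h4 : HasZ k R (Fintype.piFinset fun _ : Fin n => Δ') := by
    intro r hr
    have hr' := mem_grid.mp (hR hr)
    have hch : ∀ i, ∃ a : ℤ, ∀ j : ℕ, j < k → a + j * r i ∈ Δ' := by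
      intro i
      refine h2 (r i) (hr' i).1 (lt_of_lt_of_le (hr' i).2 ?_)
      exact_mod_cast ht1
    choose a ha using hch
    exact ⟨a, fun j hj => Fintype.mem_piFinset.mpr fun i => ha i j hj⟩
  have h5 := toE h4
  rw [Fintype.card_piFinset, Finset.prod_const, Finset.card_univ, Fintype.card_fin] at h5
  calc (T k R : ℝ) ≤ (Δ'.card : ℝ) ^ n := by exact_mod_cast h5
    _ ≤ ((M : ℝ) ^ s * (N : ℝ) ^ s) ^ n := pow_le_pow_left₀ (Nat.cast_nonneg _) h3 n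
    _ = ((M : ℝ) ^ s) ^ n * (N : ℝ) ^ (n * f + ε) := by
        rw [mul_pow]
        congr 1
        rw [← Real.rpow_natCast, ← Real.rpow_mul hN0.le]
        congr 1
        rw [hsdef]
        field_simp

end Pool.Agent.H88RD
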